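import Pool.Agent.W296.HK2

/-!
# `k`-sets and convex layers

Definitions (in `Pool/Agent/W296/HL3.lean`, `HL4.lean`, `HK2.lean`, namespace
`Pool.Agent.W296.HL`):

* `GeneralPosition P`: no three distinct points of `P` on a common line,
* `peel S`: the points of `S` which lie in the convex hull of the other points of `S`
  (the vertices of the convex hull are removed),
* `layers P`: the least `m` with `peel^[m] P = ∅`, the number of convex layers,
* `IsKSet P k S`: `|S| = k` and `S = {x ∈ P | a * x.1 + b * x.2 < c}` for some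
  `(a, b) ≠ 0` and `c`.
-/

set_option autoImplicit false

open Finset

namespace Pool.Agent.Results.MP_77a832_co.ConvexLayers

open Pool.Agent.W296.HL

/-- Upper bounds, uniform in `k`, for the number of `k`-sets of a planar point set in general
position:
1. by the convex layers (refined form, and `(2 m - 1) n`);
2. by a ranking `r` of the points such that every `p` is a vertex of the convex hull of the points
   of rank at least `r p`;
3. if all but `#B` points are in convex position. -/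
theorem result :
    (∀ P : Finset (ℝ × ℝ), GeneralPosition P → ∀ k : ℕ, 1 ≤ k → k < #P →
      {S | IsKSet P k S}.ncard ≤ #P + 2 * ∑ j ∈ range (layers P), (#P - #(peel^[j] P)) ∧
      {S | IsKSet P k S}.ncard + #P ≤ 2 * layers P * #P) ∧
    (∀ P : Finset (ℝ × ℝ), GeneralPosition P → ∀ k : ℕ, 1 ≤ k → k < #P →
      ∀ (m : ℕ) (r : ℝ × ℝ → ℕ), (∀ p ∈ P, r p ≤ m) →
      (∀ p ∈ P, p ∉ convexHull ℝ {q : ℝ × ℝ | q ∈ P ∧ r p ≤ r q ∧ q ≠ p}) →
      {S | IsKSet P k S}.ncard ≤ ∑ p ∈ P, (2 * (m - r p) + 1)) ∧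
    (∀ A B : Finset (ℝ × ℝ), GeneralPosition (A ∪ B) → Disjoint A B →
      (∀ p ∈ A, p ∉ convexHull ℝ ((A : Set (ℝ × ℝ)) \ {p})) →
      ∀ k : ℕ, 1 ≤ k → k < #(A ∪ B) →
      {S | IsKSet (A ∪ B) k S}.ncard ≤ (2 * #B + 1) * #(A ∪ B)) :=
  ⟨fun _ hP _ hk hk2 => kset_layers (gen_of_gp hP) hk hk2,
    fun _ hP _ hk hk2 m r h1 h2 => kset_ranking (gen_of_gp hP) hk hk2 m r h1 h2,
    fun _ _ hP hd hA k hk hk2 =>
      (kset_le (gen_of_gp hP) hk hk2).trans (almost_convex_k (k - 1) (gen_of_gp hP) hd hA)⟩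

end Pool.Agent.Results.MP_77a832_co.ConvexLayers
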